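import Mathlib

set_option autoImplicit false

open MeasureTheory Filter Topology Set Complex
open scoped ComplexConjugate FourierTransform Real

namespace Pool.Agent.H.MP_e53853_an

noncomputable def e (ξ z : ℂ) : ℂ := exp (I * (conj ξ * z + ξ * conj z))

noncomputable def β (ξ : ℂ) : ℂ := conj ξ / ξ

open Classical in
noncomputable def E (ξ z : ℂ) : ℂ := if ξ = 0 then conj z else (e ξ z - 1) / (I * ξ)

noncomputable def D (a b : ℂ) : ℂ →L[ℝ] ℂ :=
  a • ContinuousLinearMap.id ℝ ℂ + b • (conjCLE : ℂ →L[ℝ] ℂ)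

theorem D_apply (a b w : ℂ) : D a b w = a * w + b * conj w := by simp [D]

theorem norm_D (a b : ℂ) : ‖D a b‖ ≤ ‖a‖ + ‖b‖ := by
  refine ContinuousLinearMap.opNorm_le_bound _ (by positivity) fun w => ?_
  rw [D_apply]
  refine (norm_add_le _ _).trans ?_
  rw [norm_mul, norm_mul, Complex.norm_conj, add_mul]

theorem e_eq (ξ z : ℂ) : e ξ z = exp (I * ((2 * (conj ξ * z).re : ℝ) : ℂ)) := by
  unfold e
  congr 2
  rw [← Complex.add_conj]
  simp

theorem norm_e (ξ z : ℂ) : ‖e ξ z‖ = 1 := by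
  rw [e_eq, mul_comm, norm_exp_ofReal_mul_I]

theorem e_add (ξ ζ z : ℂ) : e (ξ + ζ) z = e ξ z * e ζ z := by
  unfold e
  rw [← Complex.exp_add]
  congr 1
  simp only [map_add]
  ring

theorem norm_β (ξ : ℂ) : ‖β ξ‖ ≤ 1 := by
  unfold β
  rw [norm_div, Complex.norm_conj]
  exact div_self_le_one _

theorem norm_E (ξ z : ℂ) : ‖E ξ z‖ ≤ 4 / (1 + ‖ξ‖) * (1 + ‖z‖) := by
  unfold E
  have hz := norm_nonneg z
  split_ifs with h
  · subst h
    simp only [Complex.norm_conj, norm_zero, add_zero, div_one]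
    linarith
  · have hξ : 0 < ‖ξ‖ := norm_pos_iff.2 h
    rw [norm_div, norm_mul, norm_I, one_mul, div_le_iff₀ hξ]
    have h1 : ‖e ξ z - 1‖ ≤ 2 := by
      refine (norm_sub_le _ _).trans ?_
      rw [norm_e]
      norm_num
    have h2 : ‖e ξ z - 1‖ ≤ 2 * (‖ξ‖ * ‖z‖) := by
      rw [e_eq]
      refine (Real.norm_exp_I_mul_ofReal_sub_one_le).trans ?_
      rw [Real.norm_eq_abs, abs_mul, abs_two]
      have := Complex.abs_re_le_norm (conj ξ * z)
      rw [norm_mul, Complex.norm_conj] at this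
      linarith
    rw [div_mul_eq_mul_div, div_mul_eq_mul_div, le_div_iff₀ (by positivity)]
    have h3 := norm_nonneg (e ξ z - 1)
    rcases le_total ‖ξ‖ 1 with h4 | h4
    · nlinarith [mul_nonneg hξ.le hz]
    · nlinarith [mul_nonneg hξ.le hz]

theorem hasF_e (ξ z : ℂ) :
    HasFDerivAt (e ξ) (D (I * conj ξ * e ξ z) (I * ξ * e ξ z)) z := by
  have h1 : HasFDerivAt (fun z : ℂ => I * (conj ξ * z + ξ * conj z)) (D (I * conj ξ) (I * ξ)) z := by
    have : (fun z : ℂ => I * (conj ξ * z + ξ * conj z)) = D (I * conj ξ) (I * ξ) := by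
      ext w
      rw [D_apply]
      ring
    rw [this]
    exact ContinuousLinearMap.hasFDerivAt _
  have h2 := (Complex.hasDerivAt_exp (I * (conj ξ * z + ξ * conj z))).comp_hasFDerivAt z h1
  refine HasFDerivAt.congr_fderiv h2 (ContinuousLinearMap.ext fun w => ?_)
  simp only [D_apply, e, ContinuousLinearMap.smul_apply, smul_eq_mul]
  ring

theorem hasF_E (ξ z : ℂ) : HasFDerivAt (E ξ) (D (β ξ * e ξ z) (e ξ z)) z := by
  by_cases h : ξ = 0
  · subst h
    have : E 0 = D 0 1 := by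
      ext w
      simp [E, D_apply]
    rw [this]
    have h2 : D (β 0 * e 0 z) (e 0 z) = D 0 1 := by simp [β, e]
    rw [h2]
    exact ContinuousLinearMap.hasFDerivAt _
  · have : E ξ = fun z => (I * ξ)⁻¹ * (e ξ z - 1) := by
      ext w
      simp only [E, h, if_false]
      ring
    rw [this]
    have h2 := ((hasF_e ξ z).sub_const 1).const_mul (I * ξ)⁻¹
    refine HasFDerivAt.congr_fderiv h2 (ContinuousLinearMap.ext fun w => ?_)
    simp only [D_apply, ContinuousLinearMap.smul_apply, smul_eq_mul, β]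
    field_simp

theorem meas_e (z : ℂ) : Measurable fun ξ => e ξ z := by
  unfold e
  exact Continuous.measurable (by fun_prop)

theorem meas_β : Measurable β := by
  unfold β
  exact continuous_conj.measurable.div measurable_id

theorem meas_E (z : ℂ) : Measurable fun ξ => E ξ z := by
  unfold E
  refine Measurable.ite (measurableSet_singleton 0) measurable_const ?_
  exact ((meas_e z).sub_const 1).div (measurable_const.mul measurable_id)

inductive Good : (ℂ → ℂ) → (ℂ → ℂ) → (ℂ → ℂ) → Prop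
  | base (Ω : Type) [MeasurableSpace Ω] (μ : Measure Ω) [SFinite μ] (c ξ : Ω → ℂ)
      (hc : Integrable c μ) (hξ : Measurable ξ) :
      Good (fun z => ∫ ω, c ω * E (ξ ω) z ∂μ) (fun z => ∫ ω, c ω * (β (ξ ω) * e (ξ ω) z) ∂μ)
        (fun z => ∫ ω, c ω * e (ξ ω) z ∂μ)
  | add {h A g h' A' g' : ℂ → ℂ} : Good h A g → Good h' A' g' → Good (h + h') (A + A') (g + g')

theorem int_mul {Ω : Type} [MeasurableSpace Ω] {μ : Measure Ω} {c F : Ω → ℂ} (hc : Integrable c μ)
    (hF : Measurable F) (C : ℝ) (hb : ∀ ω, ‖F ω‖ ≤ C) : Integrable (fun ω => c ω * F ω) μ :=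
  hc.mul_bdd hF.aestronglyMeasurable (Eventually.of_forall hb)

theorem norm_E' (ξ z : ℂ) : ‖E ξ z‖ ≤ 4 * (1 + ‖z‖) := by
  refine (norm_E ξ z).trans (mul_le_mul_of_nonneg_right ?_ (by positivity))
  exact div_le_self (by norm_num) (by linarith [norm_nonneg ξ])

theorem norm_βe (ξ z : ℂ) : ‖β ξ * e ξ z‖ ≤ 1 := by
  rw [norm_mul, norm_e, mul_one]
  exact norm_β ξ

theorem Good.deriv {h A g : ℂ → ℂ} (H : Good h A g) (z : ℂ) :
    HasFDerivAt h (D (A z) (g z)) z := by
  induction H with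
  | base Ω μ c ξ hc hξ =>
    have hE : ∀ z, Integrable (fun ω => c ω * E (ξ ω) z) μ := fun z =>
      int_mul hc ((meas_E z).comp hξ) _ fun ω => norm_E' _ _
    have hA : Integrable (fun ω => c ω * (β (ξ ω) * e (ξ ω) z)) μ :=
      int_mul hc ((meas_β.mul (meas_e z)).comp hξ) 1 fun ω => norm_βe _ _
    have hg : Integrable (fun ω => c ω * e (ξ ω) z) μ :=
      int_mul hc ((meas_e z).comp hξ) 1 fun ω => (norm_e _ _).le
    have h1 := hA.smul_const (ContinuousLinearMap.id ℝ ℂ)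
    have h2 := hg.smul_const (conjCLE : ℂ →L[ℝ] ℂ)
    have := hasFDerivAt_integral_of_dominated_of_fderiv_le (𝕜 := ℝ) (μ := μ) (x₀ := z)
      (F := fun z ω => c ω * E (ξ ω) z)
      (F' := fun z ω => D (c ω * (β (ξ ω) * e (ξ ω) z)) (c ω * e (ξ ω) z))
      (bound := fun ω => 2 * ‖c ω‖) (s := univ) univ_mem
      (Eventually.of_forall fun z => (hE z).1) (hE z) (h1.add h2).1
      (Eventually.of_forall fun ω x _ => by
        refine (norm_D _ _).trans ?_
        rw [norm_mul, norm_mul (c ω), norm_e]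
        nlinarith [norm_βe (ξ ω) x, norm_nonneg (c ω)])
      (hc.norm.const_mul 2)
      (Eventually.of_forall fun ω x _ => by
        have := (hasF_E (ξ ω) x).const_mul (c ω)
        refine HasFDerivAt.congr_fderiv this (ContinuousLinearMap.ext fun w => ?_)
        simp only [D_apply, ContinuousLinearMap.smul_apply, smul_eq_mul]
        ring)
    refine HasFDerivAt.congr_fderiv this ?_
    simp only [D]
    rw [integral_add h1 h2, integral_smul_const, integral_smul_const]
  | add _ _ ih ih' =>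
    refine HasFDerivAt.congr_fderiv (ih.add ih') (ContinuousLinearMap.ext fun w => ?_)
    simp only [D_apply, Pi.add_apply, ContinuousLinearMap.add_apply]
    ring

theorem exists_bump : ∃ (f : ℝ → ℝ) (φ : ℝ → ℂ), (∀ x, 0 ≤ f x ∧ f x ≤ 1) ∧
    (∀ x, |x| < 1 → f x = 1) ∧ Integrable φ ∧
    ∀ x, (f x : ℂ) = ∫ t, φ t * exp (I * ((2 * π * t * x : ℝ) : ℂ)) := by
  let b : ContDiffBump (0 : ℝ) := ⟨1, 2, by norm_num, by norm_num⟩
  have h1 : HasCompactSupport fun x => (b x : ℂ) :=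
    b.hasCompactSupport.comp_left (g := fun x : ℝ => (x : ℂ)) (by simp)
  have h2 : ContDiff ℝ (⊤ : ℕ∞) fun x => (b x : ℂ) := ofRealCLM.contDiff.comp b.contDiff
  let S := h1.toSchwartzMap h2
  have h3 : Integrable (𝓕 (S : ℝ → ℂ)) := by
    rw [← SchwartzMap.fourier_coe]
    exact (𝓕 S).integrable
  refine ⟨b, 𝓕 (S : ℝ → ℂ), fun x => ⟨b.nonneg, b.le_one⟩, fun x hx => ?_, h3, fun x => ?_⟩
  · exact b.one_of_mem_closedBall (by simpa using hx.le)
  · have h4 := congrFun (S.continuous.fourierInv_fourier_eq S.integrable h3) x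
    rw [Real.fourierInv_eq'] at h4
    change (S : ℝ → ℂ) x = _
    rw [← h4]
    refine integral_congr_ae (Eventually.of_forall fun t => ?_)
    simp only [smul_eq_mul]
    rw [mul_comm]
    congr 2
    rw [mul_comm]
    congr 2
    simp only [Real.inner_apply]
    ring

noncomputable def ρ (u ζ : ℂ) : ℝ := ‖β ζ - β u‖ + 4 / (1 + ‖ζ‖)

theorem ρ_nonneg (u ζ : ℂ) : 0 ≤ ρ u ζ := by unfold ρ; positivity

theorem ρ_le (u ζ : ℂ) : ρ u ζ ≤ 6 := by
  unfold ρ
  have h1 := norm_sub_le (β ζ) (β u)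
  have h2 : 4 / (1 + ‖ζ‖) ≤ 4 := div_le_self (by norm_num) (by linarith [norm_nonneg ζ])
  linarith [norm_β ζ, norm_β u]

theorem meas_ρ (u : ℂ) : Measurable (ρ u) := by
  unfold ρ
  exact (meas_β.sub_const _).norm.add (measurable_const.div (measurable_const.add measurable_norm))

theorem ρ_tendsto {u : ℂ} (hu : ‖u‖ = 1) (ξ : ℂ) {s : ℝ} (hs : s ≠ 0) :
    Tendsto (fun N : ℕ => ρ u (ξ + ((s * N : ℝ) : ℂ) * u)) atTop (𝓝 0) := by
  have h1 : Tendsto (fun N : ℕ => ‖ξ + ((s * N : ℝ) : ℂ) * u‖) atTop atTop := by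
    refine tendsto_atTop_mono (f := fun N : ℕ => |s| * N + -‖ξ‖) (fun N => ?_) ?_
    · have := norm_sub_le (ξ + ((s * N : ℝ) : ℂ) * u) ξ
      rw [add_sub_cancel_left, norm_mul, hu, mul_one, Complex.norm_real, Real.norm_eq_abs, abs_mul,
        Nat.abs_cast] at this
      linarith
    · exact tendsto_atTop_add_const_right _ _
        (tendsto_natCast_atTop_atTop.const_mul_atTop (abs_pos.2 hs))
  have h2 : Tendsto (fun N : ℕ => 4 / (1 + ‖ξ + ((s * N : ℝ) : ℂ) * u‖)) atTop (𝓝 0) :=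
    tendsto_const_nhds.div_atTop (tendsto_atTop_add_const_left _ _ h1)
  have h3 : Tendsto (fun N : ℕ => 2 * ‖ξ‖ / ‖ξ + ((s * N : ℝ) : ℂ) * u‖) atTop (𝓝 0) :=
    tendsto_const_nhds.div_atTop h1
  have h4 : Tendsto (fun N : ℕ => ‖β (ξ + ((s * N : ℝ) : ℂ) * u) - β u‖) atTop (𝓝 0) := by
    refine squeeze_zero' (Eventually.of_forall fun _ => norm_nonneg _) ?_ h3
    filter_upwards [h1.eventually_gt_atTop 0] with N hN
    have hζ : ξ + ((s * N : ℝ) : ℂ) * u ≠ 0 := norm_pos_iff.1 hN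
    have hu0 : u ≠ 0 := by rw [← norm_pos_iff, hu]; norm_num
    have : β (ξ + ((s * N : ℝ) : ℂ) * u) - β u
        = (conj ξ * u - conj u * ξ) / ((ξ + ((s * N : ℝ) : ℂ) * u) * u) := by
      unfold β
      rw [map_add, map_mul, conj_ofReal]
      field_simp
      ring
    rw [this, norm_div, norm_mul, hu, mul_one]
    refine div_le_div_of_nonneg_right ?_ hN.le
    refine (norm_sub_le _ _).trans ?_
    rw [norm_mul, norm_mul, Complex.norm_conj, Complex.norm_conj, hu]
    linarith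
  simpa [ρ] using h4.add h2

theorem Good.step {h A g : ℂ → ℂ} (H : Good h A g) {f : ℝ → ℝ} {φ : ℝ → ℂ} (hφ : Integrable φ)
    (hf : ∀ x, (f x : ℂ) = ∫ t, φ t * exp (I * ((2 * π * t * x : ℝ) : ℂ))) {u : ℂ} (hu : ‖u‖ = 1)
    (q : ℝ) {ε : ℝ} (hε : 0 < ε) :
    ∀ᶠ N : ℕ in atTop, ∃ h₂ A₂ : ℂ → ℂ,
      Good h₂ A₂ (fun z => -(g z * f (N * ((conj u * z).re - q)))) ∧
      (∀ z, ‖A₂ z + β u * (g z * f (N * ((conj u * z).re - q)))‖ ≤ ε) ∧
      ∀ z, ‖h₂ z‖ ≤ ε * (1 + ‖z‖) := by
  induction H generalizing ε with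
  | base Ω μ c ξ hc hξ =>
    set c' : ℕ → Ω × ℝ → ℂ := fun N p =>
      -c p.1 * (φ p.2 * exp (I * ((-(2 * π * p.2 * N * q) : ℝ) : ℂ))) with hc'
    set ξ' : ℕ → Ω × ℝ → ℂ := fun N p => ξ p.1 + ((π * p.2 * N : ℝ) : ℂ) * u with hξ'
    have hξm : ∀ N, Measurable (ξ' N) := fun N => by
      refine (hξ.comp measurable_fst).add (Measurable.mul_const ?_ _)
      exact Complex.measurable_ofReal.comp ((measurable_snd.const_mul _).mul_const _)
    have hφ' : ∀ N : ℕ, Integrable fun t : ℝ =>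
        φ t * exp (I * ((-(2 * π * t * N * q) : ℝ) : ℂ)) := fun N =>
      int_mul hφ (Continuous.measurable (by fun_prop)) 1 fun t => by
        rw [mul_comm, norm_exp_ofReal_mul_I]
    have hci : ∀ N, Integrable (c' N) (μ.prod volume) := fun N => hc.neg.mul_prod (hφ' N)
    have hcn : ∀ N p, ‖c' N p‖ = ‖c p.1‖ * ‖φ p.2‖ := fun N p => by
      simp only [hc']
      rw [norm_mul, norm_neg, norm_mul, mul_comm I, norm_exp_ofReal_mul_I, mul_one]
    have hb : Integrable (fun p : Ω × ℝ => ‖c p.1‖ * ‖φ p.2‖) (μ.prod volume) :=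
      hc.norm.mul_prod hφ.norm
    have hρi : ∀ N, Integrable (fun p : Ω × ℝ => ‖c p.1‖ * ‖φ p.2‖ * ρ u (ξ' N p))
        (μ.prod volume) := fun N =>
      hb.mul_bdd ((meas_ρ u).comp (hξm N)).aestronglyMeasurable (c := 6)
        (Eventually.of_forall fun p => by
          rw [Real.norm_eq_abs, abs_of_nonneg (ρ_nonneg _ _)]
          exact ρ_le _ _)
    have hae : ∀ᵐ p ∂(μ.prod (volume : Measure ℝ)), p.2 ≠ 0 := by
      refine Measure.quasiMeasurePreserving_snd.ae (p := fun t : ℝ => t ≠ 0) ?_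
      exact compl_mem_ae_iff.2 (measure_singleton (0 : ℝ))
    have hlim : Tendsto (fun N => ∫ p, ‖c p.1‖ * ‖φ p.2‖ * ρ u (ξ' N p) ∂(μ.prod volume)) atTop
        (𝓝 (∫ _p : Ω × ℝ, (0 : ℝ) ∂(μ.prod volume))) := by
      refine tendsto_integral_of_dominated_convergence (fun p => ‖c p.1‖ * ‖φ p.2‖ * 6)
        (fun N => (hρi N).1) (hb.mul_const 6) (fun N => Eventually.of_forall fun p => ?_) ?_
      · rw [Real.norm_eq_abs, abs_of_nonneg (mul_nonneg (by positivity) (ρ_nonneg _ _))]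
        exact mul_le_mul_of_nonneg_left (ρ_le _ _) (by positivity)
      · filter_upwards [hae] with p hp
        have := (ρ_tendsto hu (ξ p.1) (mul_ne_zero Real.pi_ne_zero hp)).const_mul
          (‖c p.1‖ * ‖φ p.2‖)
        rw [mul_zero] at this
        exact this
    rw [integral_zero] at hlim
    filter_upwards [(tendsto_order.1 hlim).2 ε hε] with N hN
    have hG := Good.base (Ω × ℝ) (μ.prod volume) (c' N) (ξ' N) (hci N) (hξm N)
    have hg : ∀ z, ∫ p, c' N p * e (ξ' N p) z ∂(μ.prod volume)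
        = -((∫ ω, c ω * e (ξ ω) z ∂μ) * f (N * ((conj u * z).re - q))) := by
      intro z
      rw [hf, ← neg_mul, ← integral_neg, ← integral_prod_mul]
      refine integral_congr_ae (Eventually.of_forall fun p => ?_)
      simp only [hc', hξ']
      rw [e_add, e_eq (((π * p.2 * N : ℝ) : ℂ) * u)]
      have : exp (I * ((2 * π * p.2 * (N * ((conj u * z).re - q)) : ℝ) : ℂ))
          = exp (I * ((-(2 * π * p.2 * N * q) : ℝ) : ℂ)) *
            exp (I * ((2 * (conj (((π * p.2 * N : ℝ) : ℂ) * u) * z).re : ℝ) : ℂ)) := by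
        rw [← Complex.exp_add, ← mul_add, ← ofReal_add, map_mul, conj_ofReal, mul_assoc _ (conj u),
          re_ofReal_mul]
        congr 3
        ring
      rw [this]
      ring
    refine ⟨_, _, by simpa only [hg] using hG, fun z => ?_, fun z => ?_⟩
    · have hA : Integrable (fun p => c' N p * (β (ξ' N p) * e (ξ' N p) z)) (μ.prod volume) :=
        int_mul (hci N) ((meas_β.mul (meas_e z)).comp (hξm N)) 1 fun ω => norm_βe _ _
      have hg' : Integrable (fun p => c' N p * e (ξ' N p) z) (μ.prod volume) :=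
        int_mul (hci N) ((meas_e z).comp (hξm N)) 1 fun ω => (norm_e _ _).le
      rw [← neg_neg ((∫ ω, c ω * e (ξ ω) z ∂μ) * _), ← hg z, mul_neg, ← sub_eq_add_neg,
        ← integral_const_mul, ← integral_sub hA (hg'.const_mul _)]
      refine (norm_integral_le_of_norm_le (hρi N) (Eventually.of_forall fun p => ?_)).trans hN.le
      have : c' N p * (β (ξ' N p) * e (ξ' N p) z) - β u * (c' N p * e (ξ' N p) z)
          = c' N p * (β (ξ' N p) - β u) * e (ξ' N p) z := by ring
      rw [this, norm_mul, norm_mul, norm_e, mul_one, hcn]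
      refine mul_le_mul_of_nonneg_left ?_ (by positivity)
      unfold ρ
      exact le_add_of_nonneg_right (by positivity)
    · refine (norm_integral_le_of_norm_le ((hρi N).mul_const (1 + ‖z‖))
        (Eventually.of_forall fun p => ?_)).trans ?_
      · rw [norm_mul, hcn, mul_assoc (‖c p.1‖ * ‖φ p.2‖)]
        refine mul_le_mul_of_nonneg_left ((norm_E _ _).trans ?_) (by positivity)
        refine mul_le_mul_of_nonneg_right ?_ (by positivity)
        unfold ρ
        exact le_add_of_nonneg_left (by positivity)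
      · rw [integral_mul_const]
        exact mul_le_mul_of_nonneg_right hN.le (by positivity)
  | @add h A g h' A' g' _ _ ih ih' =>
    filter_upwards [ih (half_pos hε), ih' (half_pos hε)] with N ⟨h₂, A₂, G, hA, hh⟩
      ⟨h₃, A₃, G', hA', hh'⟩
    refine ⟨h₂ + h₃, A₂ + A₃, ?_, fun z => ?_, fun z => ?_⟩
    · convert G.add G' using 1
      ext z
      simp only [Pi.add_apply]
      ring
    · have := norm_add_le_of_le (hA z) (hA' z)
      rw [add_halves] at this
      refine le_trans (le_of_eq (congrArg norm ?_)) this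
      simp only [Pi.add_apply]
      ring
    · have := norm_add_le_of_le (hh z) (hh' z)
      rw [← add_mul, add_halves] at this
      exact this

theorem Good.step' {h A g : ℂ → ℂ} (H : Good h A g) {u : ℂ} (hu : ‖u‖ = 1) (q : ℝ) {ε : ℝ}
    (hε : 0 < ε) : ∃ h' A' g' : ℂ → ℂ, Good h' A' g' ∧
      (∀ z, ‖A' z‖ + ‖g' z‖ ≤ ‖A z‖ + ‖g z‖ + ε) ∧ (∀ z, ‖h' z - h z‖ ≤ ε * (1 + ‖z‖)) ∧
      (∀ z, g z = 0 → g' z = 0) ∧ ∃ δ > 0, ∀ z, |(conj u * z).re - q| < δ → g' z = 0 := by
  obtain ⟨f, φ, hf, hf1, hφ, hfφ⟩ := exists_bump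
  obtain ⟨N, ⟨h₂, A₂, G, hA, hh⟩, hN⟩ :=
    ((H.step hφ hfφ hu q hε).and (eventually_gt_atTop 0)).exists
  have hN' : (0 : ℝ) < N := by exact_mod_cast hN
  refine ⟨_, _, _, H.add G, fun z => ?_, fun z => by simpa using hh z, fun z hz => by simp [hz],
    1 / N, by positivity, fun z hz => ?_⟩
  · simp only [Pi.add_apply]
    set χ := f (N * ((conj u * z).re - q))
    obtain ⟨h0, h1⟩ : 0 ≤ χ ∧ χ ≤ 1 := hf _
    have e1 : A z + A₂ z = A z + (A₂ z + β u * (g z * χ)) - β u * (g z * χ) := by ring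
    have e2 : g z + -(g z * χ) = g z * ((1 - χ : ℝ) : ℂ) := by push_cast; ring
    have e3 : ‖β u * (g z * χ)‖ ≤ ‖g z‖ * χ := by
      rw [norm_mul, norm_mul, Complex.norm_real, Real.norm_of_nonneg h0]
      exact mul_le_of_le_one_left (by positivity) (norm_β u)
    rw [e1, e2, norm_mul (g z), Complex.norm_real, Real.norm_of_nonneg (sub_nonneg.2 h1)]
    have e4 := norm_sub_le (A z + (A₂ z + β u * (g z * χ))) (β u * (g z * χ))
    have e5 := norm_add_le (A z) (A₂ z + β u * (g z * χ))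
    have e6 := hA z
    linarith
  · simp only [Pi.add_apply]
    rw [hf1]
    · simp
    · rw [abs_mul, Nat.abs_cast]
      rwa [lt_div_iff₀' hN'] at hz

theorem good0 : Good (fun z => conj z) 0 1 := by
  have := Good.base Unit (Measure.dirac ()) (fun _ => 1) (fun _ => 0) (integrable_const _)
    measurable_const
  convert this using 1 <;> ext z <;> simp [E, β, e]

theorem exists_h : ∃ h : ℂ → ℂ, LipschitzWith 2 h ∧ (∀ z, ‖h z - conj z‖ ≤ (1 + ‖z‖) / 50) ∧
    ∀ (z : ℂ) (q : ℚ), z.re = q ∨ z.im = q → AnalyticAt ℂ h z := by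
  obtain ⟨σ, hσ⟩ := exists_surjective_nat (Bool × ℚ)
  set u : ℕ → ℂ := fun n => if (σ n).1 then 1 else I with hu
  have hu1 : ∀ n, ‖u n‖ = 1 := fun n => by
    simp only [hu]
    split_ifs <;> simp
  let T := {p : (ℂ → ℂ) × (ℂ → ℂ) × (ℂ → ℂ) // Good p.1 p.2.1 p.2.2}
  have hstep : ∀ (n : ℕ) (p : T), ∃ p' : T,
      (∀ z, ‖p'.1.2.1 z‖ + ‖p'.1.2.2 z‖ ≤ ‖p.1.2.1 z‖ + ‖p.1.2.2 z‖ + 1 / 50 / 2 / 2 ^ n) ∧
      (∀ z, ‖p'.1.1 z - p.1.1 z‖ ≤ 1 / 50 / 2 / 2 ^ n * (1 + ‖z‖)) ∧
      (∀ z, p.1.2.2 z = 0 → p'.1.2.2 z = 0) ∧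
      ∃ δ > 0, ∀ z, |(conj (u n) * z).re - (σ n).2| < δ → p'.1.2.2 z = 0 := by
    intro n p
    obtain ⟨h', A', g', G, H⟩ := p.2.step' (hu1 n) (σ n).2
      (ε := 1 / 50 / 2 / 2 ^ n) (by positivity)
    exact ⟨⟨(h', A', g'), G⟩, H⟩
  choose F hF1 hF2 hF3 hF4 using hstep
  let s : ℕ → T := fun n => Nat.rec ⟨(fun z => conj z, 0, 1), good0⟩ F n
  have hs : ∀ n, s (n + 1) = F n (s n) := fun n => rfl
  have hb : ∀ n z, ‖(s n).1.2.1 z‖ + ‖(s n).1.2.2 z‖ ≤ 2 - 1 / 2 ^ n := by
    intro n z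
    induction n with
    | zero =>
      change ‖(0 : ℂ)‖ + ‖(1 : ℂ)‖ ≤ _
      norm_num
    | succ n ih =>
      rw [hs]
      refine (hF1 n _ z).trans ?_
      have : (0 : ℝ) < 1 / 2 ^ n := by positivity
      have e1 : (1 : ℝ) / 50 / 2 / 2 ^ n = 1 / 100 * (1 / 2 ^ n) := by ring
      have e2 : (1 : ℝ) / 2 ^ (n + 1) = 1 / 2 * (1 / 2 ^ n) := by ring
      rw [e1, e2]
      linarith
  have hlip : ∀ n, LipschitzWith 2 (s n).1.1 := fun n => by
    refine lipschitzWith_of_nnnorm_fderiv_le (𝕜 := ℝ)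
      (fun z => ((s n).2.deriv z).differentiableAt) fun z => ?_
    rw [((s n).2.deriv z).fderiv, ← NNReal.coe_le_coe, coe_nnnorm]
    refine (norm_D _ _).trans ((hb n z).trans ?_)
    have : (0 : ℝ) < 1 / 2 ^ n := by positivity
    push_cast
    linarith
  have hd : ∀ z n, dist ((s n).1.1 z) ((s (n + 1)).1.1 z) ≤ (1 + ‖z‖) / 50 / 2 / 2 ^ n := by
    intro z n
    rw [dist_comm, dist_eq_norm, hs]
    refine (hF2 n _ z).trans (le_of_eq ?_)
    ring
  have hc : ∀ z, ∃ a, Tendsto (fun n => (s n).1.1 z) atTop (𝓝 a) := fun z =>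
    cauchySeq_tendsto_of_complete (cauchySeq_of_le_geometric_two (hd z))
  choose h hh using hc
  have hdist : ∀ z n, dist ((s n).1.1 z) (h z) ≤ (1 + ‖z‖) / 50 / 2 ^ n := fun z n =>
    dist_le_of_le_geometric_two_of_tendsto (hd z) (hh z) n
  refine ⟨h, ?_, fun z => ?_, fun z q hz => ?_⟩
  · refine LipschitzWith.of_dist_le_mul fun x y => ?_
    exact le_of_tendsto' ((hh x).dist (hh y)) fun n => (hlip n).dist_le_mul x y
  · have := hdist z 0
    rw [dist_comm, dist_eq_norm, pow_zero, div_one] at this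
    exact this
  · obtain ⟨n, hn⟩ : ∃ n, (conj (u n) * z).re = (σ n).2 := by
      rcases hz with hz | hz
      · obtain ⟨n, hn⟩ := hσ (true, q)
        exact ⟨n, by simp [hu, hn, hz]⟩
      · obtain ⟨n, hn⟩ := hσ (false, q)
        exact ⟨n, by simp [hu, hn, hz]⟩
    obtain ⟨δ, hδ, hz0⟩ := hF4 n (s n)
    set U : Set ℂ := {w | |(conj (u n) * w).re - (σ n).2| < δ} ∩ Metric.ball 0 (‖z‖ + 1) with hU
    have hUo : IsOpen U := (isOpen_lt (by fun_prop) continuous_const).inter Metric.isOpen_ball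
    have hzU : z ∈ U := ⟨by simp only [mem_setOf_eq, hn, sub_self, abs_zero, hδ], by simp⟩
    have hg0 : ∀ m, n + 1 ≤ m → ∀ w ∈ U, (s m).1.2.2 w = 0 := by
      intro m hm w hw
      induction m, hm using Nat.le_induction with
      | base => exact hz0 w hw.1
      | succ m _ ih => exact hF3 m _ w ih
    have hun : TendstoUniformlyOn (fun m => (s m).1.1) h atTop U := by
      refine Metric.tendstoUniformlyOn_iff.2 fun ε hε => ?_
      have : Tendsto (fun m : ℕ => (1 + (‖z‖ + 1)) / 50 / 2 ^ m) atTop (𝓝 0) :=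
        tendsto_const_nhds.div_atTop (tendsto_pow_atTop_atTop_of_one_lt one_lt_two)
      filter_upwards [(tendsto_order.1 this).2 ε hε] with m hm w hw
      rw [dist_comm]
      refine ((hdist w m).trans ?_).trans_lt hm
      have := mem_ball_zero_iff.1 hw.2
      gcongr
    refine (hun.tendstoLocallyUniformlyOn.differentiableOn ?_ hUo).analyticAt (hUo.mem_nhds hzU)
    filter_upwards [eventually_ge_atTop (n + 1)] with m hm w hw
    have h1 := (s m).2.deriv w
    rw [hg0 m hm w hw] at h1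
    refine (hasFDerivAt_of_restrictScalars ℝ
      (f' := (s m).1.2.1 w • ContinuousLinearMap.id ℂ ℂ) h1 ?_).differentiableAt.differentiableWithinAt
    refine ContinuousLinearMap.ext fun v => ?_
    simp [D_apply]

theorem main : ∃ (D P : Set ℂ) (f : ℂ → ℂ),
      IsOpen D ∧ IsConnected D ∧
      P ⊆ D ∧ P.Nonempty ∧ Perfect P ∧ IsTotallyDisconnected P ∧
      ContinuousOn f D ∧
      DifferentiableOn ℂ f (D \ P) ∧
      (∀ p ∈ P, ¬ AnalyticAt ℂ f p) ∧
      IsTotallyDisconnected (f '' P) := by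
  obtain ⟨h, hl, hc, ha⟩ := exists_h
  set f : ℂ → ℂ := fun z => 4 * z + h z with hf
  have hfc : Continuous f := (continuous_const.mul continuous_id).add hl.continuous
  have hfa : ∀ z, AnalyticAt ℂ h z → AnalyticAt ℂ f z := fun z hz =>
    (analyticAt_const.mul analyticAt_id).add hz
  set P : Set ℂ := {z | ¬ AnalyticAt ℂ f z} with hP
  have htd : IsTotallyDisconnected P := by
    intro t ht hpc x hx y hy
    have key : ∀ (L : ℂ → ℝ), Continuous L → (∀ z ∈ t, ∀ q : ℚ, L z ≠ q) →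
        ∀ x ∈ t, ∀ y ∈ t, L y ≤ L x := by
      intro L hL hq x hx y hy
      by_contra hlt
      obtain ⟨q, h1, h2⟩ := exists_rat_btwn (not_le.1 hlt)
      obtain ⟨z, hz, hz'⟩ := hpc.intermediate_value hx hy hL.continuousOn ⟨h1.le, h2.le⟩
      exact hq z hz q hz'
    have k1 := key re continuous_re fun z hz q hq => ht hz (hfa z (ha z q (Or.inl hq)))
    have k2 := key im continuous_im fun z hz q hq => ht hz (hfa z (ha z q (Or.inr hq)))
    exact Complex.ext (le_antisymm (k1 y hy x hx) (k1 x hx y hy))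
      (le_antisymm (k2 y hy x hx) (k2 x hx y hy))
  refine ⟨univ, P, f, isOpen_univ, isConnected_univ, subset_univ _, ?_, ⟨?_, ?_⟩, htd,
    hfc.continuousOn, fun z hz => ?_, fun p hp => hp, ?_⟩
  · by_contra hne
    have hall : ∀ z, AnalyticAt ℂ f z := fun z => by
      by_contra hz
      exact hne ⟨z, hz⟩
    have hd : Differentiable ℂ h := by
      have : h = fun z => f z - 4 * z := by ext z; simp [hf]
      rw [this]
      exact fun z => (hall z).differentiableAt.sub (by fun_prop)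
    have h1 : ∮ z in C(0, 1), h z = 0 := hd.diffContOnCl.circleIntegral_eq_zero zero_le_one
    have h2 : ∮ z in C(0, 1), (z - 0)⁻¹ = 2 * π * I :=
      circleIntegral.integral_sub_inv_of_mem_ball (Metric.mem_ball_self one_pos)
    have h3 : ‖∮ z in C(0, 1), (h z - (z - 0)⁻¹)‖ ≤ 2 * π * 1 * (1 / 25) := by
      refine circleIntegral.norm_integral_le_of_norm_le_const zero_le_one fun z hz => ?_
      have hz1 : ‖z‖ = 1 := by simpa using hz
      rw [sub_zero, Complex.inv_eq_conj hz1]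
      refine (hc z).trans ?_
      rw [hz1]
      norm_num
    rw [circleIntegral.integral_sub (hl.continuous.continuousOn.circleIntegrable zero_le_one)
      (circleIntegrable_sub_inv_iff.2 (Or.inr (by simp))), h1, h2] at h3
    simp only [zero_sub, norm_neg, norm_mul, norm_I, Complex.norm_real, Complex.norm_ofNat,
      Real.norm_of_nonneg Real.pi_pos.le] at h3
    linarith [Real.pi_pos]
  · exact (isOpen_analyticAt ℂ f).isClosed_compl
  · intro p hp
    by_contra hacc
    rw [accPt_iff_frequently_nhdsNE, not_frequently] at hacc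
    refine hp (Complex.analyticAt_of_differentiable_on_punctured_nhds_of_continuousAt ?_
      hfc.continuousAt)
    filter_upwards [hacc] with z hz
    exact (not_not.1 hz).differentiableAt
  · exact (not_not.1 hz.2).differentiableAt.differentiableWithinAt
  · have hanti : AntilipschitzWith 1 f := by
      refine AntilipschitzWith.of_le_mul_dist fun x y => ?_
      have h1 := hl.dist_le_mul x y
      rw [dist_eq_norm, dist_eq_norm] at h1 ⊢
      have h2 : (4 : ℂ) * (x - y) = (f x - f y) - (h x - h y) := by simp only [hf]; ring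
      have h3 := norm_sub_le (f x - f y) (h x - h y)
      rw [← h2, norm_mul, Complex.norm_ofNat] at h3
      push_cast at h1 ⊢
      linarith [norm_nonneg (x - y)]
    exact (hanti.isEmbedding hfc).isTotallyDisconnected_image.2 htd

end Pool.Agent.H.MP_e53853_an
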